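import Pool.Agent.R171.YG.Stm

/-!
Piece B of project YG (MP_d9fc2a_co): the lower bound from the convex polygons of piece A.
-/

set_option autoImplicit false

open Complex

namespace Pool.Agent.R451.YG

open Pool.Agent.R171.YG

variable {n : ℕ}

theorem turn_add_mul (P : Polygon n) (i a : ℤ) : P.turn (i + a * n) = P.turn i := by
  induction a using Int.induction_on with
  | zero => simp
  | succ a ih =>
    rw [show i + ((a:ℤ) + 1) * n = (i + a * n) + n by ring, P.turn_add_n, ih]
  | pred a ih =>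
    have h := P.turn_add_n (i + (-(a:ℤ) - 1) * n)
    rw [show i + (-(a:ℤ) - 1) * n + n = i + -(a:ℤ) * n by ring, ih] at h
    exact h.symm

theorem ang_le_pi (P : Polygon n) (h : ∀ k : ℕ, k < n → 0 ≤ P.turn k) (t : ℝ) :
    P.ang t ≤ Real.pi := by
  by_cases ht : ∃ k : ℤ, t = P.s k
  · obtain ⟨k, rfl⟩ := ht
    rw [P.ang_s]
    unfold Polygon.angle
    have hn : (0 : ℤ) < n := by exact_mod_cast P.n_pos
    have e : k = (k % n) + (k / n) * n := by
      have := Int.emod_add_mul_ediv k n
      linarith [this, mul_comm (n : ℤ) (k / n)]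
    have h0 : 0 ≤ k % n := Int.emod_nonneg _ hn.ne'
    have h1 : k % n < n := Int.emod_lt_of_pos _ hn
    obtain ⟨r, hr⟩ : ∃ r : ℕ, (r : ℤ) = k % n := ⟨(k % n).toNat, by omega⟩
    have h2 : P.turn k = P.turn (r : ℤ) := by
      rw [hr]
      conv_lhs => rw [e]
      exact turn_add_mul P _ _
    have h3 := h r (by omega)
    rw [h2]
    linarith
  · rw [P.ang_of_not ht]

theorem mem_typ1 {P : Polygon n} (g : Triple P) (j : Fin 3) (c : Cell n) :
    c ∈ g.typ.1 j ↔ P.InCell (g.t j) c := Iff.rfl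

theorem mem_typ3 {P : Polygon n} (g : Triple P) (v : ZMod n) (c : Cell n) :
    c ∈ g.typ.2.2 v ↔ ∃ x y, P.InCell x (.vertex v) ∧ g.Glued x y ∧ P.InCell y c := Iff.rfl

/-- congruent indices -/
theorem idx_eq {a b : ℤ} (_hn : 0 < n) (h : ((a : ℤ) : ZMod n) = ((b : ℤ) : ZMod n))
    (ha0 : 0 ≤ a) (ha : a < n) (hb0 : 0 ≤ b) (hb : b < n) : a = b := by
  rw [ZMod.intCast_eq_intCast_iff] at h
  have h' := h
  unfold Int.ModEq at h'
  rw [Int.emod_eq_of_lt ha0 ha, Int.emod_eq_of_lt hb0 hb] at h'
  exact h'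

instance cellFinite (n : ℕ) [NeZero n] : Finite (Cell n) := by
  let e : Cell n → (ZMod n ⊕ ZMod n) := fun c => match c with
    | .vertex i => Sum.inl i
    | .side i => Sum.inr i
  have he : Function.Injective e := by
    intro c d h
    cases c <;> cases d <;> simp_all [e]
  exact Finite.of_injective e he

/-- the side lengths -/
noncomputable def ell (u m k : ℕ) : ℝ :=
  if k < u then 1 else if k = u then (m : ℝ) ^ 2 + 1 else if k ≤ u + m then 1 else (m : ℝ)

theorem ell_pos {u m : ℕ} (hm : 1 ≤ m) (k : ℕ) : 0 < ell u m k := by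
  have : (0 : ℝ) < m := by exact_mod_cast hm
  unfold ell
  split_ifs <;> positivity

/-- **Piece B** -/
theorem stmtB (hA : StmtA) : StmtB := by
  intro n m hm hmn
  obtain ⟨u, hu⟩ : ∃ u : ℕ, u = n - 1 - 2 * m := ⟨_, rfl⟩
  have hnu : n = u + 2 * m + 1 := by omega
  have hum : m ≤ u := by omega
  obtain ⟨P, R₁, R₂, hR1, hR2, hs1, hsk, hL, ht0, htk, htn⟩ :=
    hA n (by omega) (ell u m) (ell_pos hm)
  have hmR : (1 : ℝ) ≤ m := by exact_mod_cast hm
  have huR : (m : ℝ) ≤ u := by exact_mod_cast hum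
  have hmm : (m : ℝ) ≤ (m : ℝ) ^ 2 := by nlinarith
  -- positions
  have sX : ∀ i : ℕ, i < u → P.s ((i : ℤ) + 1) = R₁ + i := by
    intro i
    induction i with
    | zero => intro _; rw [← hs1]; norm_num
    | succ i ih =>
      intro hi
      have h1 := hsk (i + 1) (by omega) (by omega)
      have h2 := ih (by omega)
      push_cast at h1 ⊢
      rw [h1, h2]
      unfold ell
      rw [if_pos hi]; ring
  have sA : ∀ j : ℕ, j ≤ m → P.s ((u : ℤ) + 1 + j) = R₁ + u + (m : ℝ) ^ 2 + j := by
    intro j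
    induction j with
    | zero =>
      intro _
      have h1 := hsk u (by omega) (by omega)
      obtain ⟨w, hw⟩ : ∃ w : ℕ, u = w + 1 := ⟨u - 1, by omega⟩
      have h2 := sX w (by omega)
      have e : ((u : ℕ) : ℤ) = (w : ℤ) + 1 := by rw [hw]; push_cast; ring
      have e' : ((u : ℕ) : ℝ) = (w : ℝ) + 1 := by rw [hw]; push_cast; ring
      rw [e] at h1 ⊢
      rw [h2] at h1
      push_cast
      rw [add_zero, h1]
      unfold ell
      rw [if_neg (lt_irrefl _), if_pos rfl, e']
      ring
    | succ j ih =>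
      intro hj
      have h1 := hsk (u + 1 + j) (by omega) (by omega)
      have h2 := ih (by omega)
      push_cast at h1 ⊢
      rw [show (u : ℤ) + 1 + ((j : ℤ) + 1) = (u : ℤ) + 1 + j + 1 by ring, h1, h2]
      unfold ell
      rw [if_neg (by omega), if_neg (by omega), if_pos (by omega)]
      ring
  have sB : ∀ l : ℕ, l < m → P.s ((u : ℤ) + m + 1 + l) = R₁ + u + (m : ℝ) ^ 2 + m + m * l := by
    intro l
    induction l with
    | zero =>
      intro _
      have h1 := sA m le_rfl
      push_cast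
      rw [show (u : ℤ) + m + 1 + 0 = (u : ℤ) + 1 + m by ring, h1]; ring
    | succ l ih =>
      intro hl
      have h1 := hsk (u + m + 1 + l) (by omega) (by omega)
      have h2 := ih (by omega)
      push_cast at h1 ⊢
      rw [show (u : ℤ) + m + 1 + ((l : ℤ) + 1) = (u : ℤ) + m + 1 + l + 1 by ring, h1, h2]
      unfold ell
      rw [if_neg (by omega), if_neg (by omega), if_neg (by omega)]
      ring
  have sN : P.s ((n : ℤ) - 1) = R₁ + u + 2 * (m : ℝ) ^ 2 := by
    obtain ⟨w, hw⟩ : ∃ w : ℕ, m = w + 1 := ⟨m - 1, by omega⟩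
    have h := sB w (by omega)
    have e : (n : ℤ) - 1 = (u : ℤ) + m + 1 + w := by omega
    have e' : (w : ℝ) = (m : ℝ) - 1 := by rw [hw]; push_cast; ring
    rw [e, h, e']; ring
  have hsum : ∀ N : ℕ, 1 ≤ N → N ≤ n - 1 → ∑ k ∈ Finset.Ico 1 N, ell u m k = P.s N - R₁ := by
    intro N hN
    induction N, hN using Nat.le_induction with
    | base => intro _; simp [hs1]
    | succ N hN ih =>
      intro hN'
      rw [Finset.sum_Ico_succ_top hN, ih (by omega)]
      have h1 := hsk N hN (by omega)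
      push_cast
      rw [h1]; ring
  have hR2' : (u : ℝ) + 2 * (m : ℝ) ^ 2 ≤ R₂ := by
    have h := hsum (n - 1) (by omega) le_rfl
    rw [h] at hR2
    have e : ((n - 1 : ℕ) : ℤ) = (n : ℤ) - 1 := by omega
    rw [e, sN] at hR2
    linarith
  have hLL : P.L = R₁ + u + 2 * (m : ℝ) ^ 2 + R₂ := by rw [hL, sN]
  have hsn : P.s n = P.L := rfl
  have hn0 : 0 < n := by omega
  -- angles
  have hpi := Real.pi_pos
  have hn1 : (0 : ℝ) < (n : ℝ) - 1 := by
    have : (4 : ℝ) ≤ n := by exact_mod_cast (by omega : 4 ≤ n)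
    linarith
  have hh : 0 < Real.pi / ((n : ℝ) - 1) := by positivity
  have hh2 : Real.pi / ((n : ℝ) - 1) ≤ Real.pi := by
    rw [div_le_iff₀ hn1]
    have : (4 : ℝ) ≤ n := by exact_mod_cast (by omega : 4 ≤ n)
    nlinarith
  have hturn : ∀ k : ℕ, k < n → 0 ≤ P.turn k := by
    intro k hk
    rcases Nat.eq_zero_or_pos k with h | h
    · subst h
      have : P.turn ((0 : ℕ) : ℤ) = Real.pi - Real.pi / ((n : ℝ) - 1) := by
        rw [← ht0]; norm_num
      rw [this]; linarith
    · by_cases h2 : k ≤ n - 2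
      · rw [htk k h h2]; exact hh.le
      · have e : (k : ℤ) = (n : ℤ) - 1 := by omega
        rw [e, htn]; positivity
  have hang := ang_le_pi P hturn
  -- the third junction point
  have hy1 : ∀ i k l : ℕ, i < m → k < m → l < m →
      P.s ((n : ℤ) - 1) < P.s ((u : ℤ) + 1 + k) + P.s ((u : ℤ) + m + 1 + l) - P.s ((i : ℤ) + 1) := by
    intro i k l hi hk hl
    rw [sN, sA k hk.le, sB l hl, sX i (by omega)]
    have h1 : (i : ℝ) ≤ m := by exact_mod_cast hi.le
    have h2 : (0 : ℝ) ≤ k := by positivity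
    have h3 : (0 : ℝ) ≤ (m : ℝ) * l := by positivity
    linarith
  have hy2 : ∀ i k l : ℕ, i < m → k < m → l < m →
      P.s ((u : ℤ) + 1 + k) + P.s ((u : ℤ) + m + 1 + l) - P.s ((i : ℤ) + 1) < P.L := by
    intro i k l hi hk hl
    rw [hLL, sA k hk.le, sB l hl, sX i (by omega)]
    have h1 : (0 : ℝ) ≤ i := by positivity
    have h2 : (k : ℝ) + 1 ≤ m := by exact_mod_cast hk
    have h3 : (l : ℝ) + 1 ≤ m := by exact_mod_cast hl
    have h4 : (m : ℝ) * l ≤ m * (m - 1) := by
      apply mul_le_mul_of_nonneg_left _ (by positivity); linarith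
    nlinarith
  -- the triples
  let G : Fin m × Fin m × Fin m → Triple P := fun q =>
    { t := fun j => if j = 0 then 0 else if j = 1 then P.s (((q.1 : ℕ) : ℤ) + 1) else
        P.s ((u : ℤ) + 1 + ((q.2.1 : ℕ) : ℤ)) + P.s ((u : ℤ) + m + 1 + ((q.2.2 : ℕ) : ℤ)) -
          P.s (((q.1 : ℕ) : ℤ) + 1)
      nonneg := by simp
      lt01 := by
        simp only [if_true, Fin.isValue, one_ne_zero, if_false]
        rw [sX q.1 (by have := q.1.2; omega)]
        positivity
      lt12 := by
        have h := hy1 q.1 q.2.1 q.2.2 q.1.2 q.2.1.2 q.2.2.2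
        have h2 : P.s (((q.1 : ℕ) : ℤ) + 1) ≤ P.s ((n : ℤ) - 1) :=
          P.s_strictMono.monotone (by have := q.1.2; omega)
        simp only [Fin.isValue, one_ne_zero, if_false, if_true]
        rw [if_neg (by decide), if_neg (by decide)]
        linarith
      lt2 := by
        have h := hy2 q.1 q.2.1 q.2.2 q.1.2 q.2.1.2 q.2.2.2
        rw [if_neg (by decide), if_neg (by decide)]
        exact h }
  have G0 : ∀ q, (G q).t 0 = 0 := fun q => rfl
  have G1 : ∀ q, (G q).t 1 = P.s (((q.1 : ℕ) : ℤ) + 1) := fun q => rfl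
  have G2 : ∀ q, (G q).t 2 = P.s ((u : ℤ) + 1 + ((q.2.1 : ℕ) : ℤ)) +
      P.s ((u : ℤ) + m + 1 + ((q.2.2 : ℕ) : ℤ)) - P.s (((q.1 : ℕ) : ℤ) + 1) := fun q => rfl
  have Alex : ∀ q, (G q).Alexandrov := by
    intro q
    constructor
    · rw [G0, G1]
      have e0 : P.ang 0 = Real.pi / ((n : ℝ) - 1) := by
        rw [← P.s_zero, P.ang_s]; unfold Polygon.angle; rw [ht0]; ring
      have e1 : P.ang (P.s (((q.1 : ℕ) : ℤ) + 1)) = Real.pi - Real.pi / ((n : ℝ) - 1) := by
        rw [P.ang_s]; unfold Polygon.angle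
        have := htk ((q.1 : ℕ) + 1) (by omega) (by have := q.1.2; omega)
        push_cast at this
        rw [this]
      rw [e0, e1]
      have := hang ((G q).t 2)
      linarith
    · intro i x _ _ _
      have h1 := hang x
      have h2 := hang ((G q).lo i + (G q).hi i - x)
      linarith
  have inj : Function.Injective (fun q => (⟨(G q).typ, ⟨G q, Alex q, rfl⟩⟩ : P.types)) := by
    intro q q' hq
    have hq' : (G q).typ = (G q').typ := congrArg Subtype.val hq
    have h1 : (G q).typ.1 = (G q').typ.1 := by rw [hq']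
    have h3 : (G q).typ.2.2 = (G q').typ.2.2 := by rw [hq']
    -- first index
    have e1 : (q.1 : ℕ) = (q'.1 : ℕ) := by
      have h := congrFun h1 1
      have hm1 : (Cell.vertex ((((q.1 : ℕ) : ℤ) + 1 : ℤ) : ZMod n) : Cell n) ∈ (G q).typ.1 1 := by
        rw [mem_typ1, G1]
        exact ⟨_, rfl, rfl⟩
      rw [h, mem_typ1, G1] at hm1
      have hm2 : P.InCell (P.s (((q'.1 : ℕ) : ℤ) + 1))
          (Cell.vertex ((((q.1 : ℕ) : ℤ) + 1 : ℤ) : ZMod n)) := hm1
      have hm3 : P.InCell (P.s (((q'.1 : ℕ) : ℤ) + 1))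
          (Cell.vertex ((((q'.1 : ℕ) : ℤ) + 1 : ℤ) : ZMod n)) := ⟨_, rfl, rfl⟩
      have := P.inCell_vertex_unique hm2 hm3
      have hq1 := q.1.2
      have hq2 := q'.1.2
      have := idx_eq hn0 this (by omega) (by omega) (by omega) (by omega)
      omega
    -- the label of the vertex `a_k`
    have hk := q.2.1.2
    have hl := q.2.2.2
    have hk' := q'.2.1.2
    have hl' := q'.2.2.2
    have hi := q.1.2
    have hi' := q'.1.2
    set k : ℕ := (q.2.1 : ℕ) with hkdef
    set l : ℕ := (q.2.2 : ℕ) with hldef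
    set k' : ℕ := (q'.2.1 : ℕ) with hkdef'
    set l' : ℕ := (q'.2.2 : ℕ) with hldef'
    set i : ℕ := (q.1 : ℕ) with hidef
    set i' : ℕ := (q'.1 : ℕ) with hidef'
    have hmem : (Cell.vertex (((u : ℤ) + m + 1 + l : ℤ) : ZMod n) : Cell n) ∈
        (G q).typ.2.2 (((u : ℤ) + 1 + k : ℤ) : ZMod n) := by
      rw [mem_typ3]
      refine ⟨P.s ((u : ℤ) + 1 + k), P.s ((u : ℤ) + m + 1 + l), ⟨_, rfl, rfl⟩, ?_, ⟨_, rfl, rfl⟩⟩
      right
      refine ⟨0, 0, 1, ?_, ?_, ?_⟩
      · show (G q).t 1 ≤ _
        rw [G1]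
        simp only [Int.cast_zero, zero_mul, add_zero]
        exact P.s_strictMono.monotone (by omega)
      · show _ ≤ (if (1 : Fin 3) = 0 then _ else if (1 : Fin 3) = 1 then (G q).t 2 else _)
        rw [if_neg (by decide), if_pos rfl]
        simp only [Int.cast_zero, zero_mul, add_zero]
        have h := hy1 i k l hi hk hl
        have h2 : P.s ((u : ℤ) + 1 + k) ≤ P.s ((n : ℤ) - 1) :=
          P.s_strictMono.monotone (by omega)
        rw [G2]
        linarith
      · show _ = (G q).t 1 + (if (1 : Fin 3) = 0 then _ else if (1 : Fin 3) = 1 then (G q).t 2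
          else _)
        rw [if_neg (by decide), if_pos rfl, G1, G2]
        simp only [Int.cast_zero, zero_mul, add_zero]
        ring
    rw [h3, mem_typ3] at hmem
    obtain ⟨X, Y, ⟨κ, hκ, hX⟩, hG, ⟨lam, hlam, hY⟩⟩ := hmem
    have hcast : ∀ a b : ℤ, ((a + b * n : ℤ) : ZMod n) = (a : ZMod n) := by
      intro a b; push_cast; simp
    have key : k = k' ∧ l = l' := by
      rcases hG with ⟨a, ha⟩ | ⟨a, b, j, h1', h2', h3'⟩
      · exfalso
        rw [hX, hY, ← P.s_add_mul] at ha
        have hh := P.s_strictMono.injective ha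
        have : ((u : ℤ) + 1 + k : ℤ) = ((u : ℤ) + m + 1 + l : ℤ) := by
          apply idx_eq hn0 _ (by omega) (by omega) (by omega) (by omega)
          rw [← hκ, ← hlam, hh, hcast]
        omega
      · rw [hX, ← P.s_add_mul] at h1' h2' h3'
        rw [hY, ← P.s_add_mul] at h3'
        obtain ⟨κ', hκ'⟩ : ∃ z : ℤ, z = κ + a * n := ⟨_, rfl⟩
        obtain ⟨lam', hlam'⟩ : ∃ z : ℤ, z = lam + b * n := ⟨_, rfl⟩
        rw [← hκ'] at h1' h2' h3'
        rw [← hlam'] at h3'
        have c1 : ((κ' : ℤ) : ZMod n) = (((u : ℤ) + 1 + k : ℤ) : ZMod n) := by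
          rw [hκ', hcast, hκ]
        have c2 : ((lam' : ℤ) : ZMod n) = (((u : ℤ) + m + 1 + l : ℤ) : ZMod n) := by
          rw [hlam', hcast, hlam]
        have hj : j = 0 ∨ j = 1 ∨ j = 2 := by fin_cases j <;> simp
        rcases hj with hj | hj | hj
        · exfalso
          subst hj
          have g1 : (0 : ℝ) ≤ P.s κ' := h1'
          have g2 : P.s κ' ≤ P.s ((i' : ℤ) + 1) := h2'
          rw [← P.s_zero] at g1
          have g1' := P.s_strictMono.le_iff_le.1 g1
          have g2' := P.s_strictMono.le_iff_le.1 g2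
          have := idx_eq hn0 c1 g1' (by omega) (by omega) (by omega)
          omega
        · subst hj
          have g1 : P.s ((i' : ℤ) + 1) ≤ P.s κ' := h1'
          have g2 : P.s κ' ≤ P.s ((u : ℤ) + 1 + k') + P.s ((u : ℤ) + m + 1 + l') -
            P.s ((i' : ℤ) + 1) := h2'
          have g3 : P.s κ' + P.s lam' = P.s ((i' : ℤ) + 1) + (P.s ((u : ℤ) + 1 + k') +
            P.s ((u : ℤ) + m + 1 + l') - P.s ((i' : ℤ) + 1)) := h3'
          have g4 : P.s κ' < P.s n := by
            rw [hsn]; exact lt_of_le_of_lt g2 (hy2 i' k' l' hi' hk' hl')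
          have g1' := P.s_strictMono.le_iff_le.1 g1
          have g4' := P.s_strictMono.lt_iff_lt.1 g4
          have hκe := idx_eq hn0 c1 (by omega) g4' (by omega) (by omega)
          rw [hκe, sA k hk.le, sA k' hk'.le, sB l' hl'] at g3
          have g5 : P.s lam' = R₁ + u + (m : ℝ) ^ 2 + m + m * l' + k' - k := by linarith
          have kk : (k : ℝ) + 1 ≤ m := by exact_mod_cast hk
          have kk' : (k' : ℝ) + 1 ≤ m := by exact_mod_cast hk'
          have ll' : (l' : ℝ) + 1 ≤ m := by exact_mod_cast hl'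
          have k0 : (0 : ℝ) ≤ k := by positivity
          have k0' : (0 : ℝ) ≤ k' := by positivity
          have l0' : (0 : ℝ) ≤ (m : ℝ) * l' := by positivity
          have l1' : (m : ℝ) * l' ≤ m * (m - 1) := by
            apply mul_le_mul_of_nonneg_left _ (by positivity); linarith
          have g6 : P.s 0 < P.s lam' := by rw [P.s_zero, g5]; nlinarith
          have g7 : P.s lam' < P.s n := by rw [hsn, hLL, g5]; nlinarith
          have g6' := P.s_strictMono.lt_iff_lt.1 g6
          have g7' := P.s_strictMono.lt_iff_lt.1 g7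
          have hle := idx_eq hn0 c2 (by omega) g7' (by omega) (by omega)
          rw [hle, sB l hl] at g5
          have g8 : (k : ℝ) + m * l = k' + m * l' := by linarith
          have g9 : k + m * l = k' + m * l' := by exact_mod_cast g8
          have m1 : (k + m * l) % m = k := by
            rw [Nat.add_mul_mod_self_left, Nat.mod_eq_of_lt hk]
          have m2 : (k' + m * l') % m = k' := by
            rw [Nat.add_mul_mod_self_left, Nat.mod_eq_of_lt hk']
          have hkk : k = k' := by rw [← m1, ← m2, g9]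
          refine ⟨hkk, ?_⟩
          rw [hkk] at g9
          exact Nat.eq_of_mul_eq_mul_left (by omega) (Nat.add_left_cancel g9)
        · exfalso
          subst hj
          have g1 : P.s ((u : ℤ) + 1 + k') + P.s ((u : ℤ) + m + 1 + l') -
            P.s ((i' : ℤ) + 1) ≤ P.s κ' := h1'
          have g2 : P.s κ' ≤ 0 + P.L := h2'
          rw [zero_add, ← hsn] at g2
          have g3 := lt_of_lt_of_le (hy1 i' k' l' hi' hk' hl') g1
          have g2' := P.s_strictMono.le_iff_le.1 g2
          have g3' := P.s_strictMono.lt_iff_lt.1 g3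
          have e : κ' = n := by omega
          rw [e] at c1
          have c3 : (((0 : ℤ)) : ZMod n) = (((u : ℤ) + 1 + k : ℤ) : ZMod n) := by
            rw [← c1]; simp
          have := idx_eq hn0 c3 (by omega) (by omega) (by omega) (by omega)
          omega
    refine Prod.ext (Fin.ext e1) (Prod.ext (Fin.ext key.1) (Fin.ext key.2))
  refine ⟨P, ?_⟩
  haveI : NeZero n := ⟨by omega⟩
  haveI : Finite P.types := Set.toFinite P.types
  have hcard := Nat.card_le_card_of_injective _ inj
  rw [Nat.card_eq_fintype_card] at hcard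
  simp only [Fintype.card_prod, Fintype.card_fin] at hcard
  rw [Nat.card_coe_set_eq] at hcard
  calc m ^ 3 = m * (m * m) := by ring
    _ ≤ _ := hcard

end Pool.Agent.R451.YG
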